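import Mathlib
import Pool.Agent.H391R2.T4.Blueprint

/-!
Finite extensions of Hilbertian fields of characteristic zero are Hilbertian (helper793,
task E2 of helper391).
-/

set_option autoImplicit false

namespace Pool.Agent.H793R2.HilbFin

open Polynomial Module
open scoped IntermediateField nonZeroDivisors
open Pool.Agent.H391R2.T4 (HilbField)

attribute [local instance] Polynomial.algebra
attribute [local instance] FractionRing.liftAlgebra

/-- The last step: if the image of an element has an irreducible annihilator of full degree, the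
finite algebra `K'[X]/(p)` is a field. -/
theorem irreducible_of_elem {K K' : Type} [Field K] [Field K'] [Algebra K K']
    [FiniteDimensional K K'] (p : K'[X]) (hp : p.Monic) (hp0 : p.natDegree ≠ 0)
    (h : K[X]) (hm : h.Monic) (hi : Irreducible h) (γ : AdjoinRoot p)
    (hγ : aeval γ h = 0) (hd : h.natDegree = finrank K K' * p.natDegree) : Irreducible p := by
  have hp1 : p.degree ≠ 0 := by
    intro h0
    exact hp0 (natDegree_eq_of_degree_eq_some h0)
  have hnt : Nontrivial (AdjoinRoot p) := AdjoinRoot.nontrivial p hp1
  have : Fact (Irreducible h) := ⟨hi⟩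
  have hfin : Module.Finite K' (AdjoinRoot p) := hp.finite_adjoinRoot
  have hfin2 : Module.Finite K (AdjoinRoot p) := Module.Finite.trans K' (AdjoinRoot p)
  have hfin3 : Module.Finite K (AdjoinRoot h) := hm.finite_adjoinRoot
  have e1 : finrank K' (AdjoinRoot p) = p.natDegree := by
    rw [(AdjoinRoot.powerBasis' hp).finrank, AdjoinRoot.powerBasis'_dim]
  have e2 : finrank K (AdjoinRoot h) = h.natDegree := by
    rw [(AdjoinRoot.powerBasis' hm).finrank, AdjoinRoot.powerBasis'_dim]
  have e3 : finrank K (AdjoinRoot p) = finrank K K' * p.natDegree := by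
    rw [← e1, finrank_mul_finrank]
  let φ : AdjoinRoot h →ₐ[K] AdjoinRoot p := AdjoinRoot.liftAlgHom h (Algebra.ofId K _) γ hγ
  have hinj : Function.Injective φ := φ.toRingHom.injective
  have hsurj : Function.Surjective φ := by
    have h1 : finrank K (AdjoinRoot h) = finrank K (AdjoinRoot p) := by rw [e2, e3, hd]
    exact (LinearMap.injective_iff_surjective_of_finrank_eq_finrank (f := φ.toLinearMap) h1).mp hinj
  have hdom : IsDomain (AdjoinRoot p) :=
    (MulEquiv.isDomain_iff (RingEquiv.ofBijective φ.toRingHom ⟨hinj, hsurj⟩).toMulEquiv).mp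
      inferInstance
  have hprime : Prime p := by
    have h2 : (Ideal.span {p}).IsPrime := by
      rw [← Ideal.Quotient.isDomain_iff_prime]
      exact hdom
    exact (Ideal.span_singleton_prime hp.ne_zero).mp h2
  exact hprime.irreducible

/-- An integral generator of a finite extension of domains `A ⊆ M` (characteristic zero). -/
theorem exists_generator (A M : Type) [CommRing A] [IsDomain A] [CharZero A] [CommRing M]
    [IsDomain M] [Algebra A M] [FaithfulSMul A M] [Module.Finite A M] :
    ∃ m : M, (FractionRing A)⟮algebraMap M (FractionRing M) m⟯ =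
      (⊤ : IntermediateField (FractionRing A) (FractionRing M)) := by
  have htf : IsTorsionFree A M := inferInstance
  have hfd : FiniteDimensional (FractionRing A) (FractionRing M) := inferInstance
  have hcz : CharZero (FractionRing A) := inferInstance
  obtain ⟨γ, hγ⟩ := Field.exists_primitive_element (FractionRing A) (FractionRing M)
  obtain ⟨m, s, hs, hms⟩ := IsFractionRing.div_surjective (A := M) γ
  have halg : Algebra.IsAlgebraic A M := Algebra.IsIntegral.isAlgebraic
  obtain ⟨r, hr, s', hs'⟩ := (Algebra.IsAlgebraic.isAlgebraic (R := A) s).exists_nonzero_dvd hs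
  refine ⟨m * s', ?_⟩
  have hs0 : algebraMap M (FractionRing M) s ≠ 0 := by
    rw [Ne, IsFractionRing.to_map_eq_zero_iff]
    exact nonZeroDivisors.ne_zero hs
  have hr0 : algebraMap A (FractionRing A) r ≠ 0 := by
    rw [Ne, IsFractionRing.to_map_eq_zero_iff]
    exact hr
  have h1 : algebraMap M (FractionRing M) (m * s') =
      algebraMap (FractionRing A) (FractionRing M) (algebraMap A (FractionRing A) r) * γ := by
    rw [← IsScalarTower.algebraMap_apply A (FractionRing A) (FractionRing M),
      IsScalarTower.algebraMap_apply A M (FractionRing M), hs', ← hms, map_mul, map_mul]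
    field_simp
  rw [h1, eq_top_iff, ← hγ, IntermediateField.adjoin_simple_le_iff]
  set G := (FractionRing A)⟮algebraMap (FractionRing A) (FractionRing M)
    (algebraMap A (FractionRing A) r) * γ⟯ with hG
  have h2 : algebraMap (FractionRing A) (FractionRing M) (algebraMap A (FractionRing A) r) * γ ∈ G :=
    IntermediateField.mem_adjoin_simple_self _ _
  have h3 : algebraMap (FractionRing A) (FractionRing M) (algebraMap A (FractionRing A) r)⁻¹ ∈ G :=
    G.algebraMap_mem _
  have h4 := G.mul_mem h3 h2
  rw [← mul_assoc, ← map_mul, inv_mul_cancel₀ hr0, map_one, one_mul] at h4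
  exact h4

theorem finite_poly (K K' : Type) [Field K] [Field K'] [Algebra K K'] [FiniteDimensional K K'] :
    Module.Finite K[X] K'[X] :=
  Module.Finite.equiv (Algebra.IsPushout.equiv K K[X] K' K'[X]).toLinearEquiv

theorem finrank_poly (K K' : Type) [Field K] [Field K'] [Algebra K K'] :
    finrank K[X] K'[X] = finrank K K' := by
  unfold finrank
  rw [rank_polynomial_polynomial K K']

/-- avoiding a polynomial over the extension -/
theorem avoid {K K' : Type} [Field K] [Field K'] [Algebra K K'] (g : K'[X]) (hg : g ≠ 0) :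
    ∃ g' : K[X], g' ≠ 0 ∧ ∀ a : K, g'.eval a ≠ 0 → g.eval (algebraMap K K' a) ≠ 0 := by
  classical
  let S : Finset K := g.roots.toFinset.preimage (algebraMap K K')
    ((algebraMap K K').injective.injOn)
  refine ⟨∏ b ∈ S, (X - C b), ?_, ?_⟩
  · exact (monic_prod_of_monic S _ fun b _ => monic_X_sub_C b).ne_zero
  · intro a ha h0
    apply ha
    rw [eval_prod]
    have haS : a ∈ S := by
      rw [Finset.mem_preimage, Multiset.mem_toFinset, mem_roots hg]
      exact h0
    apply Finset.prod_eq_zero haS
    rw [eval_sub, eval_X, eval_C, sub_self]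

theorem main (K K' : Type) [Field K] [CharZero K] [Field K'] [Algebra K K']
    [FiniteDimensional K K'] (hK : HilbField K) : HilbField K' := by
  intro f hfm hfi _ g hg
  have hprime : Prime f := hfi.prime
  have hdom : IsDomain (AdjoinRoot f) := AdjoinRoot.isDomain_of_prime hprime
  have hfdeg : f.natDegree ≠ 0 := by
    intro h0
    apply hfi.not_isUnit
    rw [hfm.natDegree_eq_zero.mp h0]
    exact isUnit_one
  have hfdeg' : f.degree ≠ 0 := by
    intro h0
    exact hfdeg (natDegree_eq_of_degree_eq_some h0)
  have hfin1 : Module.Finite K[X] K'[X] := finite_poly K K'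
  have hfin2 : Module.Finite K'[X] (AdjoinRoot f) := hfm.finite_adjoinRoot
  have hfin : Module.Finite K[X] (AdjoinRoot f) := Module.Finite.trans K'[X] (AdjoinRoot f)
  have hinj2 : Function.Injective (algebraMap K'[X] (AdjoinRoot f)) :=
    AdjoinRoot.of.injective_of_degree_ne_zero hfdeg'
  have hff2 : FaithfulSMul K'[X] (AdjoinRoot f) := (faithfulSMul_iff_algebraMap_injective _ _).mpr hinj2
  have hinj : Function.Injective (algebraMap K[X] (AdjoinRoot f)) := by
    rw [IsScalarTower.algebraMap_eq K[X] K'[X] (AdjoinRoot f)]
    exact hinj2.comp (FaithfulSMul.algebraMap_injective K[X] K'[X])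
  have hff : FaithfulSMul K[X] (AdjoinRoot f) := (faithfulSMul_iff_algebraMap_injective _ _).mpr hinj
  have hcz : CharZero K[X] := inferInstance
  -- the generator
  obtain ⟨m, hm⟩ := exists_generator K[X] (AdjoinRoot f)
  have hmi : IsIntegral K[X] m := Algebra.IsIntegral.isIntegral m
  set h : K[X][X] := minpoly K[X] m with hh
  have hmin := minpoly.isIntegrallyClosed_eq_field_fractions (FractionRing K[X])
    (FractionRing (AdjoinRoot f)) hmi
  have hfdF : FiniteDimensional (FractionRing K[X]) (FractionRing (AdjoinRoot f)) := inferInstance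
  have hhm : h.Monic := minpoly.monic hmi
  have hhi : Irreducible h := minpoly.irreducible hmi
  have hhs : (h.map (algebraMap K[X] (FractionRing K[X]))).Separable := by
    rw [← hmin]
    exact (minpoly.irreducible (Algebra.IsIntegral.isIntegral _)).separable
  have hdeg : h.natDegree = finrank K K' * f.natDegree := by
    have h1 := (Field.primitive_element_iff_minpoly_natDegree_eq (FractionRing K[X])
      (algebraMap (AdjoinRoot f) (FractionRing (AdjoinRoot f)) m)).mp hm
    rw [hmin, hhm.natDegree_map, IsFractionRing.finrank_eq K[X] (FractionRing K[X]) (AdjoinRoot f)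
      (FractionRing (AdjoinRoot f)), ← finrank_mul_finrank' (R := K[X]) (S := K'[X]) (AdjoinRoot f),
      finrank_poly] at h1
    rw [h1, (AdjoinRoot.powerBasis' hfm).finrank, AdjoinRoot.powerBasis'_dim]
  obtain ⟨g', hg', hgg'⟩ := avoid (K := K) g hg
  obtain ⟨a, ha1, ha2⟩ := hK h hhm hhi hhs g' hg'
  refine ⟨algebraMap K K' a, hgg' a ha1, ?_⟩
  -- specialisation
  set a' : K' := algebraMap K K' a with ha'
  set p : K'[X] := f.map (evalRingHom a') with hp
  have hpm : p.Monic := hfm.map _
  have hpd : p.natDegree = f.natDegree := hfm.natDegree_map _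
  have hroot : f.eval₂ ((AdjoinRoot.of p).comp (evalRingHom a')) (AdjoinRoot.root p) = 0 := by
    rw [← eval₂_map]
    exact AdjoinRoot.eval₂_root p
  let ψ : AdjoinRoot f →+* AdjoinRoot p :=
    AdjoinRoot.lift ((AdjoinRoot.of p).comp (evalRingHom a')) (AdjoinRoot.root p) hroot
  have hψ : ψ.comp (algebraMap K[X] (AdjoinRoot f)) =
      (algebraMap K (AdjoinRoot p)).comp (evalRingHom a) := by
    have e1 : ψ.comp (algebraMap K'[X] (AdjoinRoot f)) =
        (AdjoinRoot.of p).comp (evalRingHom a') := by
      ext x
      · exact AdjoinRoot.lift_of hroot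
      · exact AdjoinRoot.lift_of hroot
    rw [IsScalarTower.algebraMap_eq K[X] K'[X] (AdjoinRoot f), ← RingHom.comp_assoc, e1,
      RingHom.comp_assoc, IsScalarTower.algebraMap_eq K K' (AdjoinRoot p), RingHom.comp_assoc]
    congr 1
    ext x
    · simp
    · simp [ha']
  have hγ : aeval (ψ m) (h.map (evalRingHom a)) = 0 := by
    rw [aeval_def, eval₂_map, ← hψ, ← hom_eval₂]
    have h2 : eval₂ (algebraMap K[X] (AdjoinRoot f)) m h = 0 := minpoly.aeval K[X] m
    rw [h2, map_zero]
  refine irreducible_of_elem p hpm (by rw [hpd]; exact hfdeg) (h.map (evalRingHom a))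
    (hhm.map _) ha2 (ψ m) hγ ?_
  rw [hhm.natDegree_map, hpd, hdeg]

theorem taskE2 : Pool.Agent.H391R2.T4.TaskE2 := by
  intro K K' _ _ _ _ _ hK
  exact main K K' hK

end Pool.Agent.H793R2.HilbFin
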